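import Pool.Agent.W981.Sym.Stm

/-!
# The cubic lemma for symmetric families
-/

set_option autoImplicit false
set_option linter.unusedSectionVars false

namespace Pool.Agent.W398.Sym

open Pool.Agent.W981.Hyp Pool.Agent.W981.Blk Pool.Agent.W981.Aff Pool.Agent.W981.Sym Module Matrix

universe u v w

/-- the positions outside the range of `f` -/
abbrev Out {a b : ℕ} (f : Fin a → Fin b) := {p : Fin b // p ∉ Set.range f}

open Classical in
theorem card_out {a b : ℕ} {f : Fin a → Fin b} (hf : Function.Injective f) :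
    Fintype.card (Out f) + a = b := by
  have h1 : Fintype.card (Set.range f) = a := by
    rw [Set.card_range_of_injective hf, Fintype.card_fin]
  have h2 := Fintype.card_subtype_compl (fun p => p ∈ Set.range f)
  have h3 : Fintype.card {p : Fin b // p ∈ Set.range f} ≤ Fintype.card (Fin b) :=
    Fintype.card_subtype_le _
  rw [Fintype.card_fin] at h2 h3
  have h4 : Fintype.card {p : Fin b // p ∈ Set.range f} = a :=
    (Fintype.card_congr (Equiv.refl _)).trans h1
  have h5 : Fintype.card (Out f) = Fintype.card {p : Fin b // ¬ p ∈ Set.range f} :=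
    Fintype.card_congr (Equiv.refl _)
  omega

open Classical in
theorem sum_out {F : Type*} [AddCommMonoid F] {a b : ℕ} {f : Fin a → Fin b}
    (hf : Function.Injective f) (g : Fin b → F) :
    ∑ p, g p = ∑ j, g (f j) + ∑ p : Out f, g p := by
  have h1 : ∑ j, g (f j) = ∑ p ∈ Finset.univ.filter (fun p => p ∈ Set.range f), g p := by
    have h2 : Finset.univ.filter (fun p => p ∈ Set.range f) = Finset.univ.image f := by
      ext p
      simp [eq_comm]
    rw [h2, Finset.sum_image fun i _ j _ hij => hf hij]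
  have h3 : ∑ p : Out f, g p = ∑ p ∈ Finset.univ.filter (fun p => p ∉ Set.range f), g p :=
    (Finset.sum_subtype _ (fun p => by
      rw [Finset.mem_filter]
      exact ⟨fun h => h.2, fun h => ⟨Finset.mem_univ _, h⟩⟩) g).symm
  rw [h1, h3, Finset.sum_filter_add_sum_filter_not]

variable {F : Type u} {ι : Type v} {P : Type w} [Field F] [Fintype ι] [AddCommGroup P]
  [Module F P] [FiniteDimensional F P]

/-- The identities. -/
structure Cub (η : ι → F) (κ s : P →ₗ[F] (ι → F)) : Prop where
  hη : ∀ i, η i = 0 → ∀ b, s b i = 0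
  h3 : ∀ a b c, κ a ⬝ᵥ (η * (s b * s c)) + κ b ⬝ᵥ (η * (s a * s c)) +
    κ c ⬝ᵥ (η * (s a * s b)) = 0

section

variable {η : ι → F} {κ s : P →ₗ[F] (ι → F)} {ρ : ℕ} {e : Fin ρ → ι} {β : Fin ρ → P}

theorem Cub.eta_ne (h : Cub η κ s) (hp : Piv s e β) (p : Fin ρ) : η (e p) ≠ 0 := by
  intro h0
  have h1 := h.hη _ h0 (β p)
  rw [hp.h1, if_pos rfl] at h1
  exact one_ne_zero h1

theorem Cub.ker_mul (h : Cub η κ s) {c : P} (hc : s c = 0) (a b : P) :
    κ c ⬝ᵥ (η * (s a * s b)) = 0 := by
  have := h.h3 c a b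
  rwa [hc, zero_mul, zero_mul, mul_zero, dotProduct_zero, dotProduct_zero, add_zero,
    add_zero] at this

/-- the mixed products -/
def M0 (η : ι → F) (s : P →ₗ[F] (ι → F)) (β : Fin ρ → P) : Submodule F (ι → F) :=
  Submodule.span F {x | ∃ p q, p ≠ q ∧ x = η * (s (β p) * s (β q))}

/-- the squares -/
def sq (η : ι → F) (s : P →ₗ[F] (ι → F)) (β : Fin ρ → P) (p : Fin ρ) : ι → F :=
  η * (s (β p) * s (β p))

theorem M0_e (hp : Piv s e β) {x : ι → F} (hx : x ∈ M0 η s β) (r : Fin ρ) : x (e r) = 0 := by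
  rw [M0] at hx
  induction hx using Submodule.span_induction with
  | mem x hx =>
    obtain ⟨p, q, hpq, rfl⟩ := hx
    rw [Pi.mul_apply, Pi.mul_apply, hp.h1, hp.h1]
    by_cases h1 : p = r
    · rw [if_neg (fun h2 : q = r => hpq (by rw [h1, h2])), mul_zero, mul_zero]
    · rw [if_neg h1, zero_mul, mul_zero]
  | zero => rfl
  | add x y _ _ hx hy => rw [Pi.add_apply, hx, hy, add_zero]
  | smul c x _ hx => rw [Pi.smul_apply, hx, smul_zero]

theorem sq_e (hp : Piv s e β) (p r : Fin ρ) :
    sq η s β p (e r) = if p = r then η (e r) else 0 := by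
  rw [sq, Pi.mul_apply, Pi.mul_apply, hp.h1]
  by_cases h1 : p = r
  · rw [if_pos h1, if_pos h1, mul_one, mul_one]
  · rw [if_neg h1, if_neg h1, zero_mul, mul_zero]

theorem sum_sq_e (hp : Piv s e β) (c : Fin ρ → F) (r : Fin ρ) :
    (∑ p, c p • sq η s β p) (e r) = c r * η (e r) := by
  rw [Finset.sum_apply, Finset.sum_eq_single r]
  · rw [Pi.smul_apply, sq_e hp, if_pos rfl, smul_eq_mul]
  · intro p _ hpr
    rw [Pi.smul_apply, sq_e hp, if_neg hpr, smul_zero]
  · intro h0
    exact absurd (Finset.mem_univ _) h0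

theorem Cub.li (h : Cub η κ s) (hp : Piv s e β) : LinearIndependent F (sq η s β) := by
  rw [Fintype.linearIndependent_iff]
  intro c hc r
  have h1 := sum_sq_e (η := η) hp c r
  rw [hc] at h1
  exact (mul_eq_zero.1 h1.symm).resolve_right (h.eta_ne hp r)

theorem Cub.inf (h : Cub η κ s) (hp : Piv s e β) :
    M0 η s β ⊓ Submodule.span F (Set.range (sq η s β)) = ⊥ := by
  rw [eq_bot_iff]
  rintro x ⟨hx1, hx2⟩
  rw [Submodule.mem_bot]
  obtain ⟨c, rfl⟩ := (Submodule.mem_span_range_iff_exists_fun F).1 hx2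
  refine Finset.sum_eq_zero fun r _ => ?_
  have h1 := M0_e hp hx1 r
  rw [sum_sq_e hp] at h1
  rw [(mul_eq_zero.1 h1).resolve_right (h.eta_ne hp r), zero_smul]

/-- the first subspace -/
def W0 (η : ι → F) (κ s : P →ₗ[F] (ι → F)) (β : Fin ρ → P) : Submodule F P :=
  (perp (M0 η s β)).comap κ

theorem mem_W0 {a : P} (ha : a ∈ W0 η κ s β) {p q : Fin ρ} (hpq : p ≠ q) :
    κ a ⬝ᵥ (η * (s (β p) * s (β q))) = 0 :=
  ha _ (Submodule.subset_span ⟨p, q, hpq, rfl⟩)

theorem Cub.finrank_M0 (h : Cub η κ s) (hp : Piv s e β)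
    (hρ : finrank F (LinearMap.range s) = ρ) {k : ℕ}
    (hk : Fintype.card ι ≤ finrank F (LinearMap.range κ) + k) : finrank F (M0 η s β) ≤ k := by
  classical
  set K0 := LinearMap.ker s with hK0
  have h1 := Submodule.finrank_sup_add_finrank_inf_eq (M0 η s β)
    (Submodule.span F (Set.range (sq η s β)))
  rw [h.inf hp, finrank_bot, finrank_span_eq_card (h.li hp), Fintype.card_fin] at h1
  have h2 := finrank_map_codim κ (S₁ := K0) (S := ⊤) le_top
  rw [Submodule.map_top, finrank_top] at h2
  have h3 := LinearMap.finrank_range_add_finrank_ker s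
  rw [hρ, ← hK0] at h3
  have h4 : finrank F (M0 η s β ⊔ Submodule.span F (Set.range (sq η s β)) :
      Submodule F (ι → F)) + finrank F (K0.map κ) ≤ Fintype.card ι := by
    refine finrank_perp_le _ _ ?_
    rintro x hx _ ⟨c, hc, rfl⟩
    have hc' : s c = 0 := hc
    rw [dotProduct_comm]
    obtain ⟨y, hy, z, hz, rfl⟩ := Submodule.mem_sup.1 hx
    clear hx
    rw [dotProduct_add]
    have e1 : κ c ⬝ᵥ y = 0 := by
      rw [M0] at hy
      induction hy using Submodule.span_induction with
      | mem x hx =>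
        obtain ⟨p, q, -, rfl⟩ := hx
        exact h.ker_mul hc' _ _
      | zero => rw [dotProduct_zero]
      | add x y _ _ hx hy => rw [dotProduct_add, hx, hy, add_zero]
      | smul c x _ hx => rw [dotProduct_smul, hx, smul_zero]
    have e2 : κ c ⬝ᵥ z = 0 := by
      induction hz using Submodule.span_induction with
      | mem x hx =>
        obtain ⟨p, rfl⟩ := hx
        exact h.ker_mul hc' _ _
      | zero => rw [dotProduct_zero]
      | add x y _ _ hx hy => rw [dotProduct_add, hx, hy, add_zero]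
      | smul c x _ hx => rw [dotProduct_smul, hx, smul_zero]
    rw [e1, e2, add_zero]
  omega

theorem Cub.finrank_W0 (h : Cub η κ s) (hp : Piv s e β)
    (hρ : finrank F (LinearMap.range s) = ρ) {k : ℕ}
    (hk : Fintype.card ι ≤ finrank F (LinearMap.range κ) + k) :
    finrank F P ≤ finrank F (W0 η κ s β) + k := by
  classical
  have h1 := h.finrank_M0 hp hρ hk
  have h2 := finrank_comap_le κ ⊤ (perp (M0 η s β))
  have h3 := finrank_perp (M0 η s β)
  rw [inf_top_eq, finrank_top, finrank_fintype_fun_eq_card] at h2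
  change _ ≤ finrank F (W0 η κ s β) + _ at h2
  omega

/-- the functionals `θ_p` -/
def th (η : ι → F) (κ s : P →ₗ[F] (ι → F)) (β : Fin ρ → P) : P →ₗ[F] (Fin ρ → F) :=
  (Matrix.mulVecLin (Matrix.of fun p i => sq η s β p i)) ∘ₗ κ

theorem th_apply (a : P) (p : Fin ρ) : th η κ s β a p = κ a ⬝ᵥ sq η s β p := by
  rw [dotProduct_comm]
  rfl

theorem triple0 (hp : Piv s e β) {a : P} (ha : a ∈ W0 η κ s β) (b c : P) :
    κ a ⬝ᵥ (η * (s b * s c)) = ∑ p, s b (e p) * s c (e p) * th η κ s β a p := by
  have h1 : s b * s c = ∑ p, ∑ q, (s b (e p) * s c (e q)) • (s (β p) * s (β q)) := by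
    conv_lhs => rw [hp.h2 b, hp.h2 c]
    rw [Finset.sum_mul_sum]
    refine Finset.sum_congr rfl fun p _ => Finset.sum_congr rfl fun q _ => ?_
    rw [smul_mul_smul_comm]
  rw [h1, mul_sum_left, dotProduct_sum]
  refine Finset.sum_congr rfl fun p _ => ?_
  rw [mul_sum_left, dotProduct_sum, Finset.sum_eq_single p]
  · rw [mul_smul_fun, dotProduct_smul, smul_eq_mul, th_apply]
    rfl
  · intro q _ hq
    rw [mul_smul_fun, dotProduct_smul, mem_W0 ha (Ne.symm hq), smul_zero]
  · intro h0
    exact absurd (Finset.mem_univ _) h0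

/-- the rank of `θ` on `W0` -/
theorem Cub.finrank_th (h : Cub η κ s) (hp : Piv s e β)
    (hρ : finrank F (LinearMap.range s) = ρ) {k : ℕ}
    (hk : Fintype.card ι ≤ finrank F (LinearMap.range κ) + k) :
    ρ ≤ finrank F ((W0 η κ s β).map (th η κ s β)) + 2 * k := by
  classical
  have h1 := h.finrank_W0 hp hρ hk
  have h2 := finrank_map_codim κ (S₁ := W0 η κ s β) (S := ⊤) le_top
  rw [Submodule.map_top, finrank_top] at h2
  set Ψ := Matrix.mulVecLin (Matrix.of fun p i => sq η s β p i) with hΨ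
  have h3 := finrank_map_codim Ψ (S₁ := (W0 η κ s β).map κ) (S := ⊤) le_top
  rw [← Submodule.map_comp, finrank_top, finrank_fintype_fun_eq_card] at h3
  have h4 : finrank F (Submodule.map Ψ ⊤) = ρ := by
    rw [Submodule.map_top]
    have h5 : (Matrix.of fun p i => sq η s β p i).rank = ρ := by
      have := LinearIndependent.rank_matrix (M := Matrix.of fun p i => sq η s β p i) (h.li hp)
      rw [this, Fintype.card_fin]
    exact h5
  rw [h4] at h3
  change _ ≤ finrank F ((W0 η κ s β).map (th η κ s β)) + _ at h3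
  have h6 := Submodule.finrank_le (LinearMap.range κ)
  rw [finrank_fintype_fun_eq_card] at h6
  omega

/-- the second choice of pivots -/
structure Pv (η : ι → F) (κ s : P →ₗ[F] (ι → F)) (e : Fin ρ → ι) (β : Fin ρ → P)
    {d : ℕ} (e' : Fin d → Fin ρ) (γ : Fin d → P) : Prop where
  h0 : ∀ j, γ j ∈ W0 η κ s β
  h1 : ∀ j l, s (γ j) (e (e' l)) = if j = l then 1 else 0
  h2 : ∀ b ∈ W0 η κ s β, s b = ∑ j, s b (e (e' j)) • s (γ j)

theorem Cub.exists_pv (h : Cub η κ s) (hp : Piv s e β)
    (hρ : finrank F (LinearMap.range s) = ρ) {k : ℕ}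
    (hk : Fintype.card ι ≤ finrank F (LinearMap.range κ) + k) :
    ∃ (d : ℕ) (e' : Fin d → Fin ρ) (γ : Fin d → P), ρ ≤ d + k ∧ Pv η κ s e β e' γ := by
  obtain ⟨d, e', b, h0, h1, h2, h3⟩ := exists_pivots ((W0 η κ s β).map (sJ s e))
  choose γ hγ1 hγ2 using h1
  refine ⟨d, e', γ, ?_, ⟨hγ1, fun j l => ?_, fun b hb => ?_⟩⟩
  · have a1 := h.finrank_W0 hp hρ hk
    have a2 := finrank_map_codim (sJ s e) (S₁ := W0 η κ s β) (S := ⊤) le_top
    rw [Submodule.map_top, range_sJ hp, finrank_top, finrank_top, finrank_fintype_fun_eq_card,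
      Fintype.card_fin, h0] at a2
    omega
  · rw [← sJ_apply, hγ2, h2]
  · have h4 : sJ s e b = sJ s e (∑ j, s b (e (e' j)) • γ j) := by
      rw [map_sum]
      refine (h3 _ ⟨b, hb, rfl⟩).trans (Finset.sum_congr rfl fun j _ => ?_)
      rw [map_smul, hγ2, sJ_apply]
    refine (s_eq_of_sJ hp h4).trans ?_
    rw [map_sum]
    exact Finset.sum_congr rfl fun j _ => by rw [map_smul]

variable {d : ℕ} {e' : Fin d → Fin ρ} {γ : Fin d → P}

theorem Pv.inj (h : Pv η κ s e β e' γ) : Function.Injective e' := by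
  intro p q hpq
  by_contra hne
  have h1 := h.h1 p q
  have h2 := h.h1 p p
  rw [← hpq, h2, if_pos rfl, if_neg hne] at h1
  exact one_ne_zero h1

/-- the matrix `Θ` -/
def TH (η : ι → F) (κ s : P →ₗ[F] (ι → F)) (β : Fin ρ → P) (e' : Fin d → Fin ρ)
    (γ : Fin d → P) (j l : Fin d) : F := th η κ s β (γ l) (e' j)

/-- the combinations of the `γ` -/
noncomputable def bb (γ : Fin d → P) : (Fin d → F) →ₗ[F] P := Fintype.linearCombination F γ

theorem bb_apply (y : Fin d → F) : bb γ y = ∑ l, y l • γ l := rfl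

theorem Pv.bb_mem (h : Pv η κ s e β e' γ) (y : Fin d → F) : bb γ y ∈ W0 η κ s β := by
  rw [bb_apply]
  exact Submodule.sum_mem _ fun l _ => Submodule.smul_mem _ _ (h.h0 l)

theorem Pv.bb_e (h : Pv η κ s e β e' γ) (y : Fin d → F) (i : Fin d) :
    s (bb γ y) (e (e' i)) = y i := by
  rw [bb_apply, map_sum, Finset.sum_apply, Finset.sum_eq_single i]
  · rw [map_smul, Pi.smul_apply, h.h1, if_pos rfl, smul_eq_mul, mul_one]
  · intro l _ hl
    rw [map_smul, Pi.smul_apply, h.h1, if_neg hl, smul_zero]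
  · intro h0
    exact absurd (Finset.mem_univ _) h0

theorem th_bb (y : Fin d → F) (j : Fin d) :
    th η κ s β (bb γ y) (e' j) = ∑ l, y l * TH η κ s β e' γ j l := by
  rw [bb_apply, map_sum, Finset.sum_apply]
  refine Finset.sum_congr rfl fun l _ => ?_
  rw [map_smul, Pi.smul_apply, smul_eq_mul, TH]

/-- the subspace `Y` -/
noncomputable def YS (η : ι → F) (κ s : P →ₗ[F] (ι → F)) (e : Fin ρ → ι) (β : Fin ρ → P)
    (e' : Fin d → Fin ρ) (γ : Fin d → P) : Submodule F (Fin d → F) :=
  LinearMap.ker ((LinearMap.pi fun p : Out e' =>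
      (LinearMap.proj (e p) : (ι → F) →ₗ[F] F) ∘ₗ s ∘ₗ bb γ).prod
    (LinearMap.pi fun p : Out e' =>
      (LinearMap.proj (p : Fin ρ) : (Fin ρ → F) →ₗ[F] F) ∘ₗ th η κ s β ∘ₗ bb γ))

theorem mem_YS {y : Fin d → F} (hy : y ∈ YS η κ s e β e' γ) (p : Out e') :
    s (bb γ y) (e p) = 0 ∧ th η κ s β (bb γ y) p = 0 := by
  rw [YS, LinearMap.mem_ker] at hy
  exact ⟨congrFun (congrArg Prod.fst hy) p, congrFun (congrArg Prod.snd hy) p⟩

open Classical in
theorem finrank_YS : d ≤ finrank F (YS η κ s e β e' γ) + 2 * Fintype.card (Out e') := by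
  have h1 := LinearMap.finrank_range_add_finrank_ker ((LinearMap.pi fun p : Out e' =>
      (LinearMap.proj (e p) : (ι → F) →ₗ[F] F) ∘ₗ s ∘ₗ bb γ).prod
    (LinearMap.pi fun p : Out e' =>
      (LinearMap.proj (p : Fin ρ) : (Fin ρ → F) →ₗ[F] F) ∘ₗ th η κ s β ∘ₗ bb γ))
  have h2 := Submodule.finrank_le (LinearMap.range ((LinearMap.pi fun p : Out e' =>
      (LinearMap.proj (e p) : (ι → F) →ₗ[F] F) ∘ₗ s ∘ₗ bb γ).prod
    (LinearMap.pi fun p : Out e' =>
      (LinearMap.proj (p : Fin ρ) : (Fin ρ → F) →ₗ[F] F) ∘ₗ th η κ s β ∘ₗ bb γ)))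
  rw [finrank_prod, finrank_fintype_fun_eq_card] at h2
  rw [finrank_fintype_fun_eq_card, Fintype.card_fin] at h1
  change _ + finrank F (YS η κ s e β e' γ) = _ at h1
  omega

/-- the identity on `Y` -/
theorem Cub.ident (h : Cub η κ s) (hp : Piv s e β) (h' : Pv η κ s e β e' γ) {y : Fin d → F}
    (hy : y ∈ YS η κ s e β e' γ) (j m : Fin d) :
    (if j = m then th η κ s β (bb γ y) (e' j) else 0) + y m * TH η κ s β e' γ m j +
      y j * TH η κ s β e' γ j m = 0 := by
  classical
  have h3 := h.h3 (bb γ y) (γ j) (γ m)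
  rw [triple0 hp (h'.bb_mem y), triple0 hp (h'.h0 j), triple0 hp (h'.h0 m),
    sum_out h'.inj, sum_out h'.inj (fun p => s (bb γ y) (e p) * s (γ m) (e p) *
      th η κ s β (γ j) p), sum_out h'.inj (fun p => s (bb γ y) (e p) * s (γ j) (e p) *
      th η κ s β (γ m) p)] at h3
  have z1 : ∑ p : Out e', s (γ j) (e p) * s (γ m) (e p) * th η κ s β (bb γ y) p = 0 :=
    Finset.sum_eq_zero fun p _ => by rw [(mem_YS hy p).2, mul_zero]
  have z2 : ∑ p : Out e', s (bb γ y) (e p) * s (γ m) (e p) * th η κ s β (γ j) p = 0 :=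
    Finset.sum_eq_zero fun p _ => by rw [(mem_YS hy p).1, zero_mul, zero_mul]
  have z3 : ∑ p : Out e', s (bb γ y) (e p) * s (γ j) (e p) * th η κ s β (γ m) p = 0 :=
    Finset.sum_eq_zero fun p _ => by rw [(mem_YS hy p).1, zero_mul, zero_mul]
  rw [z1, z2, z3, add_zero, add_zero, add_zero] at h3
  have e1 : ∑ i, s (γ j) (e (e' i)) * s (γ m) (e (e' i)) * th η κ s β (bb γ y) (e' i) =
      if j = m then th η κ s β (bb γ y) (e' j) else 0 := by
    rw [Finset.sum_eq_single j]
    · rw [h'.h1, h'.h1, if_pos rfl, one_mul]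
      by_cases hjm : j = m
      · rw [if_pos hjm, if_pos hjm.symm, one_mul]
      · rw [if_neg hjm, if_neg (Ne.symm hjm), zero_mul]
    · intro i _ hi
      rw [h'.h1, if_neg (Ne.symm hi), zero_mul, zero_mul]
    · intro h0
      exact absurd (Finset.mem_univ _) h0
  have e2 : ∀ a c : Fin d, ∑ i, s (bb γ y) (e (e' i)) * s (γ a) (e (e' i)) *
      th η κ s β (γ c) (e' i) = y a * TH η κ s β e' γ a c := by
    intro a c
    rw [Finset.sum_eq_single a]
    · rw [h'.bb_e, h'.h1, if_pos rfl, mul_one, TH]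
    · intro i _ hi
      rw [h'.h1, if_neg (Ne.symm hi), mul_zero, zero_mul]
    · intro h0
      exact absurd (Finset.mem_univ _) h0
  rw [e1, e2, e2] at h3
  exact h3

open Classical in
/-- the pivots of `Y`: few diagonal entries of `Θ` are non-zero -/
theorem Cub.pivY (h : Cub η κ s) (h30 : (3 : F) ≠ 0) (hp : Piv s e β)
    (h' : Pv η κ s e β e' γ) :
    ∃ (d2 : ℕ) (g : Fin d2 → Fin d), Function.Injective g ∧
      d ≤ d2 + 2 * Fintype.card (Out e') ∧
      (∀ q q', q ≠ q' → TH η κ s β e' γ (g q) (g q') = 0) ∧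
      Fintype.card {q // TH η κ s β e' γ (g q) (g q) ≠ 0} + d2 ≤ d := by
  obtain ⟨d2, g, b, h0, h1, h2, -⟩ := exists_pivots (YS η κ s e β e' γ)
  have hg : Function.Injective g := by
    intro p q hpq
    by_contra hne
    have a1 := h2 p q
    have a2 := h2 p p
    rw [← hpq, a2, if_pos rfl, if_neg hne] at a1
    exact one_ne_zero a1
  refine ⟨d2, g, hg, ?_, ?_, ?_⟩
  · have := finrank_YS (η := η) (κ := κ) (s := s) (e := e) (β := β) (e' := e') (γ := γ)
    rwa [h0] at this
  · intro q q' hqq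
    have a1 := h.ident hp h' (h1 q) (g q') (g q)
    rw [if_neg (fun a => hqq (hg a).symm), h2, h2, if_pos rfl, if_neg hqq, zero_add, one_mul,
      zero_mul, add_zero] at a1
    exact a1
  · have off : ∀ q q', q ≠ q' → TH η κ s β e' γ (g q) (g q') = 0 := by
      intro q q' hqq
      have a1 := h.ident hp h' (h1 q) (g q') (g q)
      rw [if_neg (fun a => hqq (hg a).symm), h2, h2, if_pos rfl, if_neg hqq, zero_add, one_mul,
        zero_mul, add_zero] at a1
      exact a1
    have key : (Matrix.diagonal fun q => -(3 * TH η κ s β e' γ (g q) (g q))) =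
        (Matrix.of fun (q' : Fin d2) (l : Out g) => TH η κ s β e' γ (g q') l) *
          (Matrix.of fun (l : Out g) (q : Fin d2) => b q l) := by
      ext q' q
      rw [Matrix.mul_apply]
      have a1 := h.ident hp h' (h1 q) (g q') (g q')
      rw [if_pos rfl, th_bb, sum_out hg] at a1
      have a2 : ∑ j, b q (g j) * TH η κ s β e' γ (g q') (g j) =
          TH η κ s β e' γ (g q') (g q) := by
        rw [Finset.sum_eq_single q]
        · rw [h2, if_pos rfl, one_mul]
        · intro j _ hj
          rw [h2, if_neg (Ne.symm hj), zero_mul]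
        · intro h0
          exact absurd (Finset.mem_univ _) h0
      rw [a2, h2] at a1
      have a3 : ∑ x : Out g, (Matrix.of fun (q' : Fin d2) (l : Out g) =>
          TH η κ s β e' γ (g q') l) q' x * (Matrix.of fun (l : Out g) (q : Fin d2) => b q l) x q =
          ∑ p : Out g, b q p * TH η κ s β e' γ (g q') p := by
        refine Finset.sum_congr rfl fun p _ => ?_
        rw [Matrix.of_apply, Matrix.of_apply, mul_comm]
      rw [a3]
      by_cases hq : q = q'
      · subst hq
        rw [Matrix.diagonal_apply_eq]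
        rw [if_pos rfl] at a1
        linear_combination -a1
      · rw [Matrix.diagonal_apply_ne _ (Ne.symm hq)]
        rw [if_neg hq, off _ _ (Ne.symm hq)] at a1
        linear_combination -a1
    have r1 := Matrix.rank_diagonal (fun q => -(3 * TH η κ s β e' γ (g q) (g q)))
    rw [key] at r1
    have r2 := Matrix.rank_mul_le_left (Matrix.of fun (q' : Fin d2) (l : Out g) =>
      TH η κ s β e' γ (g q') l) (Matrix.of fun (l : Out g) (q : Fin d2) => b q l)
    have r3 := Matrix.rank_le_card_width (Matrix.of fun (q' : Fin d2) (l : Out g) =>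
      TH η κ s β e' γ (g q') l)
    have r4 := card_out hg
    have r5 : Fintype.card {q // -(3 * TH η κ s β e' γ (g q) (g q)) ≠ 0} =
        Fintype.card {q // TH η κ s β e' γ (g q) (g q) ≠ 0} := by
      refine Fintype.card_congr (Equiv.subtypeEquivRight fun q => ?_)
      rw [neg_ne_zero, mul_ne_zero_iff]
      exact ⟨fun h => h.2, fun h => ⟨h30, h⟩⟩
    omega

/-- dimension of the span of a family over a finite set -/
theorem finrank_span_image {V : Type*} [AddCommGroup V] [Module F V] {d : ℕ} (f : Fin d → V)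
    (B : Finset (Fin d)) : finrank F (Submodule.span F (f '' (B : Set (Fin d)))) ≤ B.card := by
  classical
  have h1 := finrank_span_finset_le_card (R := F) (B.image f)
  rw [Finset.coe_image] at h1
  exact h1.trans Finset.card_image_le

/-- vectors supported outside the range of an injective map -/
theorem finrank_sup {a b : ℕ} {f : Fin a → Fin b} (hf : Function.Injective f) :
    finrank F (LinearMap.ker (LinearMap.funLeft F F f)) + a = b := by
  have h1 := LinearMap.finrank_range_add_finrank_ker (LinearMap.funLeft F F f)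
  rw [LinearMap.range_eq_top.2 (LinearMap.funLeft_surjective_of_injective F F f hf), finrank_top,
    finrank_fintype_fun_eq_card, finrank_fintype_fun_eq_card, Fintype.card_fin,
    Fintype.card_fin] at h1
  omega

/-- `θ` is small on the kernel of `s` -/
theorem Cub.finrank_K (h : Cub η κ s) (hp : Piv s e β) (h' : Pv η κ s e β e' γ) :
    finrank F ((LinearMap.ker s ⊓ W0 η κ s β).map (th η κ s β)) + d ≤ ρ := by
  classical
  let gg : Fin d → (Fin ρ → F) := fun j p => s (γ j) (e p) * s (γ j) (e p)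
  have hli : LinearIndependent F gg := by
    rw [Fintype.linearIndependent_iff]
    intro c hc i
    have h1 := congrFun hc (e' i)
    rw [Finset.sum_apply, Finset.sum_eq_single i] at h1
    · rw [Pi.smul_apply] at h1
      change c i * (s (γ i) (e (e' i)) * s (γ i) (e (e' i))) = 0 at h1
      rwa [h'.h1, if_pos rfl, mul_one, mul_one] at h1
    · intro j _ hj
      rw [Pi.smul_apply]
      change c j * (s (γ j) (e (e' i)) * s (γ j) (e (e' i))) = 0
      rw [h'.h1, if_neg hj, mul_zero, mul_zero]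
    · intro h0
      exact absurd (Finset.mem_univ _) h0
  have h1 := finrank_perp_le ((LinearMap.ker s ⊓ W0 η κ s β).map (th η κ s β))
    (Submodule.span F (Set.range gg)) (by
      rintro _ ⟨a, ⟨ha1, ha2⟩, rfl⟩ q hq
      have ha1' : s a = 0 := ha1
      induction hq using Submodule.span_induction with
      | mem x hx =>
        obtain ⟨j, rfl⟩ := hx
        have h2 := h.ker_mul ha1' (γ j) (γ j)
        rw [triple0 hp ha2] at h2
        rw [← h2]
        exact Finset.sum_congr rfl fun p _ => mul_comm _ _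
      | zero => rw [dotProduct_zero]
      | add x y _ _ hx hy => rw [dotProduct_add, hx, hy, add_zero]
      | smul c x _ hx => rw [dotProduct_smul, hx, smul_zero])
  rw [finrank_span_eq_card hli, Fintype.card_fin, Fintype.card_fin] at h1
  exact h1

/-- the bound -/
theorem Cub.bound (h : Cub η κ s) (h30 : (3 : F) ≠ 0) {k : ℕ}
    (hk : Fintype.card ι ≤ finrank F (LinearMap.range κ) + k) :
    finrank F (LinearMap.range s) ≤ 10 * k := by
  classical
  obtain ⟨ρ, e, β, hρ, hp⟩ := exists_piv s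
  obtain ⟨d, e', γ, hd, h'⟩ := h.exists_pv hp hρ hk
  obtain ⟨d2, g, hg, hd2, hoff, hcard⟩ := h.pivY h30 hp h'
  have c1 := card_out h'.inj
  have c2 := h.finrank_th hp hρ hk
  have c3 := h.finrank_K hp h'
  -- the bad indices
  let Bad : Finset (Fin d) := Finset.univ.filter fun j =>
    ¬ ∃ q, g q = j ∧ TH η κ s β e' γ (g q) (g q) = 0
  have hBad : Bad.card + d2 ≤ d + Fintype.card {q // TH η κ s β e' γ (g q) (g q) ≠ 0} := by
    have b1 : (Finset.univ.filter fun j => ∃ q, g q = j ∧
        TH η κ s β e' γ (g q) (g q) = 0) =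
        (Finset.univ.filter fun q => TH η κ s β e' γ (g q) (g q) = 0).image g := by
      ext j
      simp only [Finset.mem_filter, Finset.mem_univ, true_and, Finset.mem_image]
      constructor
      · rintro ⟨q, hq1, hq2⟩
        exact ⟨q, hq2, hq1⟩
      · rintro ⟨q, hq1, hq2⟩
        exact ⟨q, hq2, hq1⟩
    have b2 := Finset.card_filter_add_card_filter_not (s := (Finset.univ : Finset (Fin d)))
      (fun j => ∃ q, g q = j ∧ TH η κ s β e' γ (g q) (g q) = 0)
    have b3 := Finset.card_filter_add_card_filter_not (s := (Finset.univ : Finset (Fin d2)))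
      (fun q => TH η κ s β e' γ (g q) (g q) = 0)
    rw [b1, Finset.card_image_of_injective _ hg, Finset.card_univ, Fintype.card_fin] at b2
    rw [Finset.card_univ, Fintype.card_fin] at b3
    have b4 : Fintype.card {q // TH η κ s β e' γ (g q) (g q) ≠ 0} =
        (Finset.univ.filter fun q => ¬ TH η κ s β e' γ (g q) (g q) = 0).card :=
      Fintype.card_subtype _
    have b5 : Bad.card = (Finset.univ.filter fun j => ¬ ∃ q, g q = j ∧
        TH η κ s β e' γ (g q) (g q) = 0).card := rfl
    omega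
  -- the big subspace
  have hle : (W0 η κ s β).map (th η κ s β) ≤
      (LinearMap.ker s ⊓ W0 η κ s β).map (th η κ s β) ⊔
      (Submodule.span F ((fun j => th η κ s β (γ j)) '' (Bad : Set (Fin d))) ⊔
        LinearMap.ker (LinearMap.funLeft F F (e' ∘ g))) := by
    rintro _ ⟨a, ha, rfl⟩
    have ha' : a ∈ W0 η κ s β := ha
    have e1 : a = (a - ∑ j, s a (e (e' j)) • γ j) + ∑ j, s a (e (e' j)) • γ j := by abel
    rw [e1, map_add]
    refine Submodule.add_mem _ ?_ ?_
    · refine Submodule.mem_sup_left ⟨_, ⟨?_, ?_⟩, rfl⟩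
      · show s (a - ∑ j, s a (e (e' j)) • γ j) = 0
        rw [map_sub, map_sum, sub_eq_zero]
        refine (h'.h2 a ha').trans ?_
        exact Finset.sum_congr rfl fun j _ => by rw [map_smul]
      · exact Submodule.sub_mem _ ha' (Submodule.sum_mem _ fun j _ =>
          Submodule.smul_mem _ _ (h'.h0 j))
    · rw [map_sum]
      refine Submodule.sum_mem _ fun j _ => ?_
      rw [map_smul]
      refine Submodule.smul_mem _ _ (Submodule.mem_sup_right ?_)
      by_cases hj : j ∈ Bad
      · exact Submodule.mem_sup_left (Submodule.subset_span ⟨j, hj, rfl⟩)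
      · refine Submodule.mem_sup_right ?_
        have hj' : ∃ q, g q = j ∧ TH η κ s β e' γ (g q) (g q) = 0 := by
          by_contra hcon
          exact hj (Finset.mem_filter.2 ⟨Finset.mem_univ _, hcon⟩)
        obtain ⟨q, rfl, hq⟩ := hj'
        rw [LinearMap.mem_ker]
        funext q'
        change TH η κ s β e' γ (g q') (g q) = 0
        by_cases hqq : q' = q
        · rw [hqq, hq]
        · exact hoff _ _ hqq
  have f1 := Submodule.finrank_mono hle
  have f2 := Submodule.finrank_add_le_finrank_add_finrank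
    ((LinearMap.ker s ⊓ W0 η κ s β).map (th η κ s β))
    (Submodule.span F ((fun j => th η κ s β (γ j)) '' (Bad : Set (Fin d))) ⊔
        LinearMap.ker (LinearMap.funLeft F F (e' ∘ g)))
  have f3 := Submodule.finrank_add_le_finrank_add_finrank
    (Submodule.span F ((fun j => th η κ s β (γ j)) '' (Bad : Set (Fin d))))
    (LinearMap.ker (LinearMap.funLeft F F (e' ∘ g)))
  have f4 := finrank_span_image (F := F) (fun j => th η κ s β (γ j)) Bad
  have f5 := finrank_sup (F := F) (h'.inj.comp hg)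
  omega

end

/-- `S_CUB` -/
theorem main : Pool.Agent.W981.Sym.S_CUB.{u, v, w} := by
  intro F ι P _ _ _ _ _ η κ s k h30 hη h3 hk
  exact Cub.bound ⟨hη, h3⟩ h30 hk

end Pool.Agent.W398.Sym
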